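import Pool.Agent.H34.FS.Targets

/-!
Row SPI: the pairs of linear forms congruent to the special pair are robust.
-/

set_option autoImplicit false

open Finset Pool.Agent.H32.RQ Pool.Agent.H34.FQ Pool.Agent.H34.FS

namespace Pool.Agent.H18.HFS

theorem spi_qf {R : Type} [CommRing R] {s : ℕ} (f : Mon s → R) : qf f (fun _ => 0) = 0 := by
  simp [qf]

theorem spi_dq {R : Type} [CommRing R] {s : ℕ} (f : Mon s → R) (k : Fin s) :
    dq f (fun _ => 0) k = 0 := by
  simp [dq]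

theorem spi_sum {n : ℕ} (l : Fin (n + 1) → ℤ) :
    ∑ j, l j * cv (1 : ℤ) (fun _ => (0 : ℤ)) j = l 0 := by
  rw [Fin.sum_univ_succ]
  simp [cv]

theorem pf_SPI (hGGE : T_GGE) : T_SPI := by
  intro r F U A p L hr hL hp hpU
  unfold sL at hL
  rw [Finset.mem_filter] at hL
  have hd : ∀ i j, (p : ℤ) ^ 2 ∣ L i j - if j.val = i.val + 1 then 1 else 0 := by
    intro i j
    refine dvd_trans ?_ (hL.2 i j)
    exact_mod_cast hpU
  refine ⟨0, by omega, 1, fun _ => 0, le_rfl, fun h => absurd rfl h, ?_,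
    ⟨0, by omega⟩, ⟨1, by omega⟩, ?_⟩
  · intro i
    have h1 := (hGGE ℤ r (F i) (L i) 1 (fun _ => 0)).1
    rw [spi_qf, spi_sum, zero_add, one_mul] at h1
    have h2 : qf (gg F L i) (cv ((p : ℤ) ^ 0) (fun _ => 0)) = L i 0 := by
      rw [pow_zero]
      exact h1
    rw [h2, mul_one]
    have h3 := hd i 0
    rw [if_neg (by simp), sub_zero] at h3
    exact h3
  · have hdq : ∀ (i : Fin 2) (k : Fin r),
        dq (gg F L i) (cv ((p : ℤ) ^ 0) (fun _ => 0)) k.succ = L i k.succ := by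
      intro i k
      have h1 := (hGGE ℤ r (F i) (L i) 1 (fun _ => 0)).2.1 k
      rw [spi_dq, zero_add, one_mul] at h1
      rw [pow_zero]
      exact h1
    unfold jm
    rw [hdq, hdq, hdq, hdq, pow_one]
    have h1 : (p : ℤ) ∣ L 0 (Fin.succ ⟨0, by omega⟩) - 1 := by
      have h := dvd_trans (dvd_pow_self (p : ℤ) two_ne_zero) (hd 0 (Fin.succ ⟨0, by omega⟩))
      simpa using h
    have h2 : (p : ℤ) ∣ L 1 (Fin.succ ⟨1, by omega⟩) - 1 := by
      have h := dvd_trans (dvd_pow_self (p : ℤ) two_ne_zero) (hd 1 (Fin.succ ⟨1, by omega⟩))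
      simpa using h
    have h3 : (p : ℤ) ∣ L 0 (Fin.succ ⟨1, by omega⟩) := by
      have h := dvd_trans (dvd_pow_self (p : ℤ) two_ne_zero) (hd 0 (Fin.succ ⟨1, by omega⟩))
      simpa using h
    intro h5
    obtain ⟨a, ha⟩ := h1
    obtain ⟨b, hb⟩ := h2
    obtain ⟨c, hc⟩ := h3
    obtain ⟨e, he⟩ := h5
    have h6 : (p : ℤ) ∣ 1 := by
      refine ⟨e - a * L 1 (Fin.succ ⟨1, by omega⟩) - b + c * L 1 (Fin.succ ⟨0, by omega⟩), ?_⟩
      have e1 : L 0 (Fin.succ ⟨0, by omega⟩) = 1 + p * a := by linarith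
      have e2 : L 1 (Fin.succ ⟨1, by omega⟩) = 1 + p * b := by linarith
      rw [hc, e1] at he
      linear_combination he + (-1 : ℤ) * e2
    have h7 := Int.natCast_dvd_natCast.1 (by exact_mod_cast h6 : ((p : ℕ) : ℤ) ∣ ((1 : ℕ) : ℤ))
    exact hp.one_lt.ne' (Nat.dvd_one.1 h7)

end Pool.Agent.H18.HFS
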