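import Pool.Agent.H34.FS.Targets
import Pool.Agent.H14.RQ.TRB

/-!
Row TBL: from the residues to the box.
-/

set_option autoImplicit false

open Finset Pool.Agent.H32.RQ Pool.Agent.H34.FQ Pool.Agent.H34.FS

namespace Pool.Agent.H18.HFS

theorem tbl_prod (r m : ℕ) :
    m ^ (2 * (r + 1)) = ∏ _i : Fin 2, ∏ _p : Fin (r + 1), m := by
  rw [Finset.prod_const, Finset.prod_const, Finset.card_univ, Finset.card_univ,
    Fintype.card_fin, Fintype.card_fin, ← pow_mul, mul_comm]

theorem tbl_fibre (r A M : ℕ) [NeZero M] (hM : M ≤ 2 * A + 1)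
    (l : Fin 2 → Fin (r + 1) → ZMod M) :
    ((bL r A).filter fun L => cL (ZMod M) L = l).card * M ^ (2 * (r + 1)) ≤
      2 ^ (2 * (r + 1)) * (2 * A + 1) ^ (2 * (r + 1)) := by
  classical
  have h1 : ((bL r A).filter fun L => cL (ZMod M) L = l) ⊆
      Fintype.piFinset fun i => Fintype.piFinset fun p =>
        (Finset.Icc (-(A : ℤ)) A).filter fun u : ℤ => (u : ZMod M) = l i p := by
    intro c hc
    obtain ⟨h2, h3⟩ := Finset.mem_filter.1 hc
    rw [Fintype.mem_piFinset]
    intro i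
    rw [Fintype.mem_piFinset]
    intro p
    have h4 := Fintype.mem_piFinset.1 (Fintype.mem_piFinset.1 h2 i) p
    exact Finset.mem_filter.2 ⟨h4, congrFun (congrFun h3 i) p⟩
  have h2 := Finset.card_le_card h1
  rw [Fintype.card_piFinset] at h2
  simp only [Fintype.card_piFinset] at h2
  calc ((bL r A).filter fun L => cL (ZMod M) L = l).card * M ^ (2 * (r + 1))
      ≤ (∏ i : Fin 2, ∏ p : Fin (r + 1),
        ((Finset.Icc (-(A : ℤ)) A).filter fun u : ℤ => (u : ZMod M) = l i p).card) *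
          M ^ (2 * (r + 1)) := Nat.mul_le_mul_right _ h2
    _ = ∏ i : Fin 2, ∏ p : Fin (r + 1),
        (((Finset.Icc (-(A : ℤ)) A).filter fun u : ℤ => (u : ZMod M) = l i p).card * M) := by
        rw [tbl_prod r M, ← Finset.prod_mul_distrib]
        refine Finset.prod_congr rfl fun i _ => ?_
        rw [← Finset.prod_mul_distrib]
    _ ≤ ∏ _i : Fin 2, ∏ _p : Fin (r + 1), (2 * (2 * A + 1)) :=
        Finset.prod_le_prod' fun i _ => Finset.prod_le_prod' fun p _ =>
          Pool.Agent.H14.RQ.count_le A M hM (l i p)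
    _ = 2 ^ (2 * (r + 1)) * (2 * A + 1) ^ (2 * (r + 1)) := by
        rw [← tbl_prod, mul_pow]

theorem tbl_card (r A : ℕ) : (bL r A).card = (2 * A + 1) ^ (2 * (r + 1)) := by
  unfold bL
  rw [Fintype.card_piFinset]
  simp only [Fintype.card_piFinset]
  rw [tbl_prod]
  refine Finset.prod_congr rfl fun i _ => Finset.prod_congr rfl fun p _ => ?_
  rw [Int.card_Icc]
  omega

theorem pf_TBL : T_TBL := by
  classical
  intro r A
  refine ⟨tbl_card r A, ?_⟩
  intro M _ E hM
  have h1 : ((bL r A).filter fun L => cL (ZMod M) L ∈ E).card =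
      ∑ l ∈ E, ((bL r A).filter fun L => cL (ZMod M) L = l).card := by
    have h2 := Finset.card_eq_sum_card_fiberwise (s := (bL r A).filter fun L =>
      cL (ZMod M) L ∈ E) (f := fun L => cL (ZMod M) L) (t := E)
      (fun c hc => (Finset.mem_filter.1 hc).2)
    rw [h2]
    refine Finset.sum_congr rfl fun l hl => ?_
    congr 1
    ext c
    simp only [Finset.mem_filter]
    constructor
    · rintro ⟨⟨a, -⟩, b⟩
      exact ⟨a, b⟩
    · rintro ⟨a, b⟩
      exact ⟨⟨a, by rw [b]; exact hl⟩, b⟩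
  rw [h1, Finset.sum_mul, mul_comm (2 ^ (2 * (r + 1)) * (2 * A + 1) ^ (2 * (r + 1))),
    ← smul_eq_mul E.card, ← Finset.sum_const]
  exact Finset.sum_le_sum fun l _ => tbl_fibre r A M hM l

end Pool.Agent.H18.HFS
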